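import Pool.Agent.H.MP_4cc686_gt.A

set_option autoImplicit false
open Set Pool.Agent.H.MP_4cc686_gt

namespace Pool.Agent.Results.MP_4cc686_gt.Arrow

theorem result : ∃ (X Y : Type) (_ : TopologicalSpace X) (_ : TopologicalSpace Y),
    CompactSpace X ∧ T35Space X ∧ CompactSpace Y ∧ T35Space Y ∧
    (∀ A : Set X, ∃ C ⊆ A, C.Countable ∧ A ⊆ closure C) ∧
    (∃ B : Set Y, ∀ C ⊆ B, C.Countable → ¬ B ⊆ closure C) ∧
    ∃ φ : {f : X → ℝ // Continuous f} → {g : Y → ℝ // Continuous g},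
      Continuous φ ∧ IsOpenMap φ ∧ Function.Surjective φ := by
  refine ⟨X, Y, inferInstance, inferInstance, inferInstance, inferInstance, inferInstance, inferInstance,
    hsep, ⟨range OnePoint.some, fun C _ hC h => Dunc ?_⟩, φ, φ_cont, φ_open, φ_surj⟩
  refine (hC.preimage OnePoint.coe_injective).mono fun x _ => ?_
  obtain ⟨y, rfl, hy⟩ := mem_closure_iff.1 (h (mem_range_self x)) {(x : Y)}
    (by simpa using OnePoint.isOpenMap_coe _ (isOpen_discrete {x})) rfl
  exact hy

end Pool.Agent.Results.MP_4cc686_gt.Arrow
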